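import Pool.Agent.H629.TA.Stm

set_option autoImplicit false

/-! Rules for `step` (project TA, MP_751612_pr). -/

open Finset

namespace Pool.Agent.H661.TA.SR

open Pool.Agent.H629.TA

theorem t_SR : S_DR → S_TW → S_SR := by
  intro hDR hTW m δ hm hδ k h hk hv
  obtain ⟨_, htw, _⟩ := hTW m k h hk hv
  have htot : 0 < tot m δ k := by
    unfold tot
    have h1 : (2 : ℝ) ≤ k := by exact_mod_cast hk
    have h2 : (1 : ℝ) ≤ m := by exact_mod_cast hm
    have h3 : 0 < 2 * (m : ℝ) * ((k : ℝ) - 1) := by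
      apply mul_pos (by linarith) (by linarith)
    have h4 : 0 < (k : ℝ) * δ := mul_pos (by linarith) hδ
    linarith
  have hnn : ∀ a ∈ Icc 1 k, 0 ≤ wt m δ h k a / tot m δ k := by
    intro a _
    apply div_nonneg _ htot.le
    unfold wt
    have : (0 : ℝ) ≤ (deg m h k a : ℝ) := Nat.cast_nonneg _
    linarith
  have hsum : ∑ a ∈ Icc 1 k, wt m δ h k a / tot m δ k = 1 := by
    rw [← Finset.sum_div, htw δ, div_self htot.ne']
  obtain ⟨d1, d2, d3, d4, d5, _⟩ := hDR m (Icc 1 k) (fun a => wt m δ h k a / tot m δ k)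
  exact ⟨fun c => d1 c hsum, fun f g => d2 _ _, fun c f => d3 c _,
    fun f g hfg => d4 _ _ hnn hfg, fun f g hfg => d5 _ _ hfg⟩

end Pool.Agent.H661.TA.SR
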